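import Pool.Agent.W601.RP.Stm2

set_option autoImplicit false
set_option linter.all false
open scoped Classical
open Filter Topology

namespace Pool.Agent.W918.RP
open Pool.Agent.W601.RP

/-- Arbitrarily late large coefficients. -/
theorem late (k : ℕ → (ℕ →₀ ℤ)) (hR : ∀ j, Red (k j))
    (hC : ¬ ∃ C : ℤ, ∀ j t, |k j t| ≤ C) (J T : ℕ) (C : ℤ) :
    ∃ j e : ℕ, J < j ∧ T ≤ e ∧ C < |k j e| := by
  by_contra hcon
  push Not at hcon
  apply hC
  refine ⟨|C| + (∑ i ∈ Finset.range (J + 1), ∑ t ∈ (k i).support, |k i t|) +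
    (∑ t ∈ Finset.range T, (N t : ℤ)), ?_⟩
  have h1 : 0 ≤ (∑ i ∈ Finset.range (J + 1), ∑ t ∈ (k i).support, |k i t|) :=
    Finset.sum_nonneg (fun i _ => Finset.sum_nonneg (fun t _ => abs_nonneg _))
  have h2 : 0 ≤ (∑ t ∈ Finset.range T, (N t : ℤ)) :=
    Finset.sum_nonneg (fun t _ => by positivity)
  have h3 : 0 ≤ |C| := abs_nonneg C
  have h3' : C ≤ |C| := le_abs_self C
  intro j t
  by_cases hj : j ≤ J
  · have h4 : |k j t| ≤ ∑ t ∈ (k j).support, |k j t| := by
      by_cases ht : t ∈ (k j).support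
      · exact Finset.single_le_sum (f := fun t => |k j t|) (fun t _ => abs_nonneg _) ht
      · rw [Finsupp.notMem_support_iff.mp ht, abs_zero]
        exact Finset.sum_nonneg (fun t _ => abs_nonneg _)
    have h5 : (∑ t ∈ (k j).support, |k j t|) ≤
        (∑ i ∈ Finset.range (J + 1), ∑ t ∈ (k i).support, |k i t|) :=
      Finset.single_le_sum (f := fun i => ∑ t ∈ (k i).support, |k i t|)
        (fun i _ => Finset.sum_nonneg (fun t _ => abs_nonneg _))
        (Finset.mem_range.mpr (by omega))
    linarith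
  · by_cases ht : t < T
    · have h4 : |k j t| ≤ (N t : ℤ) := by
        have := hR j t
        rw [abs_le]
        constructor <;> omega
      have h5 : (N t : ℤ) ≤ (∑ t ∈ Finset.range T, (N t : ℤ)) :=
        Finset.single_le_sum (f := fun t => (N t : ℤ)) (fun t _ => by positivity)
          (Finset.mem_range.mpr ht)
      linarith
    · have := hcon j t (by omega) (by omega)
      linarith

theorem interv (u : ℕ → ℕ) (hu : StrictMono u) (t : ℕ) (h0 : u 0 ≤ t) :
    ∃ l, u l ≤ t ∧ t < u (l + 1) := by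
  have hex : ∃ n, t < u n := ⟨t + 1, lt_of_lt_of_le (Nat.lt_succ_self t) (hu.id_le (t + 1))⟩
  have h1 := Nat.find_spec hex
  have h2 : Nat.find hex ≠ 0 := by
    intro h
    rw [h] at h1
    omega
  obtain ⟨l, hl⟩ := Nat.exists_eq_succ_of_ne_zero h2
  refine ⟨l, ?_, ?_⟩
  · have := Nat.find_min hex (m := l) (by omega)
    omega
  · rw [hl] at h1
    exact h1

theorem two_le_N (t : ℕ) : 2 ≤ N t := by
  unfold N
  have := Nat.factorial_pos (t + 1)
  omega

theorem succ_le_N (t : ℕ) : t + 1 ≤ N t := by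
  unfold N
  have := Nat.self_le_factorial (t + 1)
  omega

theorem coef : S_GH → S_NU0 → S_CIR → S_COEF := by
  intro hGH hNU hCIR k hR hNull hL
  obtain ⟨L, hL⟩ := hL
  by_contra hC
  obtain ⟨hnu1, hnu2, hnu3⟩ := hNU
  have hcir4 := hCIR.2.2.2.1
  -- thresholds for nu
  have hT : ∀ l : ℕ, ∃ T : ℕ, ∀ t, T ≤ t → nu t ≤ (1 / 2 : ℝ) ^ (l + 2) / (L + 1) := by
    intro l
    have hfin := hnu1 ((1 / 2 : ℝ) ^ (l + 2) / (L + 1)) (by positivity)
    obtain ⟨B, hB⟩ := hfin.bddAbove
    refine ⟨B + 1, fun t ht => ?_⟩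
    by_contra h
    push Not at h
    have := hB (show t ∈ {t | (1 / 2 : ℝ) ^ (l + 2) / (L + 1) ≤ nu t} from h.le)
    omega
  choose T hT using hT
  -- the step
  have hstep : ∀ (p : ℕ × ℕ) (l : ℕ), ∃ p' : ℕ × ℕ, p.1 < p'.1 ∧ p.2 < p'.2 ∧
      (∀ t ∈ (k p.1).support, t < p'.2) ∧ T l ≤ p'.2 ∧ (l : ℤ) < |k p'.1 p'.2| := by
    intro p l
    obtain ⟨j, e, h1, h2, h3⟩ := late k hR hC p.1
      (p.2 + 1 + ((k p.1).support.sup id + 1) + T l) (l : ℤ)
    refine ⟨(j, e), h1, ?_, ?_, ?_, h3⟩
    · show p.2 < e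
      omega
    · intro t ht
      have : t ≤ (k p.1).support.sup id := Finset.le_sup (f := id) ht
      show t < e
      omega
    · show T l ≤ e
      omega
  choose st hst1 hst2 hst3 hst4 hst5 using hstep
  let s : ℕ → ℕ × ℕ := fun n => Nat.rec (st (0, 0) 0) (fun l p => st p (l + 1)) n
  have hs0 : s 0 = st (0, 0) 0 := rfl
  have hsS : ∀ l, s (l + 1) = st (s l) (l + 1) := fun l => rfl
  have hTs : ∀ l, T l ≤ (s l).2 := by
    intro l
    cases l with
    | zero => exact hst4 _ _
    | succ l => exact hst4 _ _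
  have hks : ∀ l : ℕ, (l : ℤ) < |k (s l).1 (s l).2| := by
    intro l
    cases l with
    | zero => exact hst5 _ _
    | succ l => exact hst5 _ _
  set j : ℕ → ℕ := fun l => (s l).1 with hj
  set u : ℕ → ℕ := fun l => (s l).2 with hu
  have hjm : StrictMono j := strictMono_nat_of_lt_succ (fun l => hst1 (s l) (l + 1))
  have hum : StrictMono u := strictMono_nat_of_lt_succ (fun l => hst2 (s l) (l + 1))
  have hsup : ∀ l, ∀ t ∈ (k (j l)).support, t < u (l + 1) := fun l => hst3 (s l) (l + 1)
  have hTu : ∀ l, T l ≤ u l := hTs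
  have hku : ∀ l : ℕ, (l : ℤ) < |k (j l) (u l)| := hks
  have hk0 : ∀ l, k (j l) (u l) ≠ 0 := by
    intro l h
    have := hku l
    rw [h, abs_zero] at this
    omega
  -- the choice of a
  have ha : ∀ l, ∃ a : ℕ, a < N (u l) ∧
      ‖((((a : ℝ) / (N (u l) : ℝ)) : ℝ) : TT)‖ ≤ 1 / (4 * |(k (j l) (u l) : ℝ)|) + 1 / (N (u l) : ℝ) ∧
      1 / 4 ≤ ‖(k (j l) (u l)) • ((((a : ℝ) / (N (u l) : ℝ)) : ℝ) : TT)‖ := by
    intro l
    exact hcir4 (N (u l)) (k (j l) (u l)) (two_le_N _) (hk0 l) (hR (j l) (u l)).1 (hR (j l) (u l)).2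
  choose a ha1 ha2 ha3 using ha
  -- the union
  set W : Set ℕ := ⋃ l, {t | t ∈ (k (j l)).support ∧ u l ≤ t} with hW
  have hnn : ∀ t, 0 ≤ W.indicator nu t := fun t => Set.indicator_nonneg (fun t _ => hnu3 t) t
  have hsum : ∀ n, ∑ t ∈ Finset.range (u n), W.indicator nu t ≤
      ∑ l ∈ Finset.range n, (1 / 2 : ℝ) ^ (l + 2) := by
    intro n
    induction n with
    | zero =>
      rw [Finset.sum_range_zero]
      apply le_of_eq
      apply Finset.sum_eq_zero
      intro t ht
      apply Set.indicator_of_notMem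
      intro htW
      rw [hW, Set.mem_iUnion] at htW
      obtain ⟨l, _, hl⟩ := htW
      have h1 : u 0 ≤ u l := hum.monotone (Nat.zero_le l)
      rw [Finset.mem_range] at ht
      omega
    | succ n ih =>
      rw [Finset.sum_range_succ _ n]
      have hle : u n ≤ u (n + 1) := hum.monotone (Nat.le_succ n)
      rw [← Finset.sum_range_add_sum_Ico _ hle]
      apply add_le_add ih
      have hsub : ∀ t ∈ Finset.Ico (u n) (u (n + 1)), W.indicator nu t ≤
          if t ∈ (k (j n)).support then (1 / 2 : ℝ) ^ (n + 2) / (L + 1) else 0 := by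
        intro t ht
        rw [Finset.mem_Ico] at ht
        by_cases htW : t ∈ W
        · rw [Set.indicator_of_mem htW]
          rw [hW, Set.mem_iUnion] at htW
          obtain ⟨l, hl1, hl2⟩ := htW
          have h1 := hsup l t hl1
          have h2 : l < n + 1 := hum.lt_iff_lt.mp (lt_of_le_of_lt hl2 ht.2)
          have h3 : n < l + 1 := hum.lt_iff_lt.mp (lt_of_le_of_lt ht.1 h1)
          have h4 : l = n := by omega
          subst h4
          rw [if_pos hl1]
          exact hT l t (le_trans (hTu l) hl2)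
        · rw [Set.indicator_of_notMem htW]
          split_ifs
          · positivity
          · exact le_refl _
      refine le_trans (Finset.sum_le_sum hsub) ?_
      rw [← Finset.sum_filter, Finset.sum_const, nsmul_eq_mul]
      have hcard : ((Finset.Ico (u n) (u (n + 1))).filter (fun t => t ∈ (k (j n)).support)).card ≤ L := by
        refine le_trans (Finset.card_le_card ?_) (hL (j n))
        intro t ht
        exact (Finset.mem_filter.mp ht).2
      have hcard' : (((Finset.Ico (u n) (u (n + 1))).filter (fun t => t ∈ (k (j n)).support)).card : ℝ)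
          ≤ (L : ℝ) + 1 := by
        have : (((Finset.Ico (u n) (u (n + 1))).filter (fun t => t ∈ (k (j n)).support)).card : ℝ) ≤ (L : ℝ) := by
          exact_mod_cast hcard
        linarith
      have hp : (0 : ℝ) < (1 / 2 : ℝ) ^ (n + 2) := by positivity
      have hL1 : (0 : ℝ) < (L : ℝ) + 1 := by positivity
      calc _ ≤ ((L : ℝ) + 1) * ((1 / 2 : ℝ) ^ (n + 2) / (L + 1)) :=
            mul_le_mul_of_nonneg_right hcard' (by positivity)
        _ = (1 / 2 : ℝ) ^ (n + 2) := by field_simp
  have hgeo : ∀ n, ∑ l ∈ Finset.range n, (1 / 2 : ℝ) ^ (l + 2) ≤ 1 / 2 := by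
    intro n
    have : ∑ l ∈ Finset.range n, (1 / 2 : ℝ) ^ (l + 2) = 1 / 2 - (1 / 2 : ℝ) ^ (n + 1) := by
      induction n with
      | zero => norm_num
      | succ n ih =>
        rw [Finset.sum_range_succ, ih]
        ring
    rw [this]
    have : (0 : ℝ) ≤ (1 / 2 : ℝ) ^ (n + 1) := by positivity
    linarith
  have hfinsum : ∀ F : Finset ℕ, ∑ t ∈ F, W.indicator nu t ≤ 1 / 2 := by
    intro F
    have hF : F ⊆ Finset.range (u (F.sup id + 1)) := by
      intro t ht
      have h1 : t ≤ F.sup id := Finset.le_sup (f := id) ht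
      have h2 : F.sup id + 1 ≤ u (F.sup id + 1) := hum.id_le _
      rw [Finset.mem_range]
      omega
    refine le_trans (Finset.sum_le_sum_of_subset_of_nonneg hF (fun t _ _ => hnn t)) ?_
    exact le_trans (hsum (F.sup id + 1)) (hgeo (F.sup id + 1))
  have hsumm : Summable (W.indicator nu) := summable_of_sum_le hnn hfinsum
  have htsum : (∑' t, W.indicator nu t) < 1 := by
    have : (∑' t, W.indicator nu t) ≤ 1 / 2 := hsumm.tsum_le_of_sum_le hfinsum
    linarith
  -- the family
  let f1 : ℕ → ℕ → ℕ := fun l t => if t = u l then a l else 0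
  have hf1 : ∀ l t, f1 l t = if t = u l then a l else 0 := fun l t => rfl
  obtain ⟨q, hqQ, hq⟩ := hGH (fun l => k (j l)) u hum hsup hsumm htsum
    (fun l => {0, f1 l}) (by
      intro l f hf t
      rcases hf with hf | hf
      · rw [hf]
        refine ⟨?_, ?_⟩
        · have := two_le_N t
          show 0 < N t
          omega
        · intro h
          exact absurd rfl h
      · rw [Set.mem_singleton_iff] at hf
        rw [hf, hf1]
        by_cases ht : t = u l
        · rw [if_pos ht, ht]
          refine ⟨ha1 l, fun _ => ⟨?_, le_refl _⟩⟩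
          exact Finsupp.mem_support_iff.mpr (hk0 l)
        · rw [if_neg ht]
          refine ⟨?_, fun h => absurd rfl h⟩
          have := two_le_N t
          omega)
    (by
      intro l r
      by_cases hr : 1 / 8 ≤ ‖r‖
      · refine ⟨0, Or.inl rfl, ?_⟩
        have : ∑ t ∈ (k (j l)).support.filter (fun t => u l ≤ t),
            (k (j l) t) • (((((0 : ℕ → ℕ) t : ℝ) / (N t : ℝ)) : ℝ) : TT) = 0 := by
          apply Finset.sum_eq_zero
          intro t _
          simp
        rw [this, add_zero]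
        exact hr
      · refine ⟨f1 l, Or.inr rfl, ?_⟩
        have : ∑ t ∈ (k (j l)).support.filter (fun t => u l ≤ t),
            (k (j l) t) • ((((f1 l t : ℝ) / (N t : ℝ)) : ℝ) : TT) =
            (k (j l) (u l)) • ((((a l : ℝ) / (N (u l) : ℝ)) : ℝ) : TT) := by
          rw [Finset.sum_eq_single (u l)]
          · rw [hf1, if_pos rfl]
          · intro t _ ht
            rw [hf1, if_neg ht]
            simp
          · intro h
            exfalso
            apply h
            rw [Finset.mem_filter]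
            exact ⟨Finsupp.mem_support_iff.mpr (hk0 l), le_refl _⟩
        rw [this]
        push Not at hr
        have h1 := ha3 l
        have h2 : ‖(k (j l) (u l)) • ((((a l : ℝ) / (N (u l) : ℝ)) : ℝ) : TT)‖ ≤
            ‖r + (k (j l) (u l)) • ((((a l : ℝ) / (N (u l) : ℝ)) : ℝ) : TT)‖ + ‖r‖ := by
          have := norm_sub_le (r + (k (j l) (u l)) • ((((a l : ℝ) / (N (u l) : ℝ)) : ℝ) : TT)) r
          rwa [add_sub_cancel_left] at this
        linarith)
    (by
      intro g hg0 hg A _ η hη
      obtain ⟨m, hm⟩ := exists_nat_gt (2 / η)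
      refine Set.Finite.subset ((Finset.range (m + 1)).image u).finite_toSet ?_
      rintro t ⟨_, ht⟩
      change η ≤ ‖((((g t : ℝ) / (N t : ℝ)) : ℝ) : TT)‖ at ht
      have hgt : g t ≠ 0 := by
        intro h
        rw [h] at ht
        simp at ht
        linarith
      have htu0 : u 0 ≤ t := by
        by_contra h
        push Not at h
        exact hgt (hg0 t h)
      obtain ⟨l, hl1, hl2⟩ := interv u hum t htu0
      obtain ⟨f, hf, hgf⟩ := hg l
      have hgft := hgf t hl1 hl2
      rcases hf with hf | hf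
      · exfalso
        apply hgt
        rw [hgft, hf]
        rfl
      · rw [Set.mem_singleton_iff] at hf
        rw [hf, hf1] at hgft
        by_cases htl : t = u l
        · rw [if_pos htl] at hgft
          rw [hgft, htl] at ht
          have h3 := le_trans ht (ha2 l)
          have h4 : (l : ℝ) + 1 ≤ |(k (j l) (u l) : ℝ)| := by
            have := hku l
            have h5 : (l : ℤ) + 1 ≤ |k (j l) (u l)| := this
            exact_mod_cast h5
          have h5 : (l : ℝ) + 1 ≤ (N (u l) : ℝ) := by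
            have h6 : l ≤ u l := hum.id_le l
            have h7 := succ_le_N (u l)
            have : l + 1 ≤ N (u l) := by omega
            exact_mod_cast this
          have hl0 : (0 : ℝ) < (l : ℝ) + 1 := by positivity
          have h6 : 1 / (4 * |(k (j l) (u l) : ℝ)|) ≤ 1 / ((l : ℝ) + 1) :=
            one_div_le_one_div_of_le hl0 (by linarith [abs_nonneg (k (j l) (u l) : ℝ)])
          have h7 : 1 / (N (u l) : ℝ) ≤ 1 / ((l : ℝ) + 1) := one_div_le_one_div_of_le hl0 h5
          have h8 : η ≤ 2 / ((l : ℝ) + 1) := by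
            have : 2 / ((l : ℝ) + 1) = 1 / ((l : ℝ) + 1) + 1 / ((l : ℝ) + 1) := by ring
            linarith
          have h9 : (l : ℝ) + 1 ≤ 2 / η := by
            rw [le_div_iff₀ hη]
            rw [le_div_iff₀ hl0] at h8
            linarith
          have h10 : (l : ℝ) + 1 < (m : ℝ) := lt_of_le_of_lt h9 hm
          have h11 : l + 1 < m := by exact_mod_cast h10
          rw [Finset.mem_coe, Finset.mem_image]
          exact ⟨l, Finset.mem_range.mpr (by omega), htl.symm⟩
        · exfalso
          rw [if_neg htl] at hgft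
          exact hgt hgft)
  have hxH : x q ∈ H := AddSubgroup.subset_closure ⟨q, hqQ, rfl⟩
  have ht := (hNull (x q) hxH).comp hjm.tendsto_atTop
  have ht2 := ht.norm
  rw [norm_zero] at ht2
  have hev := ht2.eventually (gt_mem_nhds (show (0 : ℝ) < 1 / 8 by norm_num))
  obtain ⟨l, hl⟩ := hev.exists
  have := hq l
  simp only [Function.comp] at hl
  linarith

end Pool.Agent.W918.RP
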